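import Pool.Agent.N110.IM.Img
import Pool.Agent.N110.IM.Defs
import Pool.Agent.N110.PA.Main
import Pool.Agent.N110.RK.Stat
import Pool.Agent.N110.NV.Fin
import Pool.Agent.R887.Exc

/-!
Pairs which are dominated by a pair with an abelian group of birational self-maps of positive
entropy, isomorphisms in codimension one: a bound for the numerical dimension, and the numerical
dimension zero if the rank is maximal.
-/

set_option autoImplicit false

open FF Pool.Agent.W602.GT Pool.Agent.Y172 Pool.Agent.R887 Pool.Agent.N110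

/-- Let `X'` be a normal projective variety of dimension `n ≥ 1`, with generic point `y'`, and `Δ'`
a `ℚ`-divisor on `X'` (`Δ' = 0`, for instance). By the theorem of Néron and Severi the group of the
divisors on `X'` modulo numerical equivalence is finitely generated; this is the hypothesis `hN`. Let
`ℤ ^ r`, `r ≥ 1`, act by birational self-maps `f_v` of `X'`, given by the automorphisms
`φ v = f_v^*` of the function field, which are isomorphisms in codimension one (every birational
self-map of a minimal variety is one) and preserve `Δ'`. Suppose that the first dynamical degree of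
`f_v` is greater than `1` for all `v ≠ 0`.

Let `(X, Δ)` be a pair, `Δ ≥ 0` (for instance a log canonical pair), which is dominated by
`(X', Δ')`: there is a dominant rational map `X' ⇢ X`, generically finite, given by the homomorphism
`π` of the function fields, such that the pull back of `K_X + Δ` is at most `K_X' + Δ'` over the
prime divisors of `X'`. The map has nothing to do with the maps `f_v`. Then `r ≤ n - 1`, the numerical
dimension of `K_X + Δ` is at most `n - 1 - r`, and so is the Kodaira dimension; if the Kodaira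
dimension is at least `n - 1 - r`, then the Kodaira dimension and the numerical dimension of
`K_X + Δ` are equal. For `r = n - 1` the numerical dimension of `K_X + Δ` is at most zero; if
`K_X + Δ` is pseudo-effective and the irregularity of `X` is zero then the Kodaira dimension is zero
and so is the numerical dimension which is defined by the growth of the number of the sections of
`m (K_X + Δ) + A`. -/
theorem Pool.Agent.Results.MP_c1e25c_ag.CoveredPositiveEntropy.result
    {K K' : Type} [Field K] [Algebra ℂ K] [Field K'] [Algebra ℂ K'] {N N' n : ℕ}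
    {y : Fin (N + 1) → K} {y' : Fin (N' + 1) → K'} (hy : NormalModel y) (hy' : NormalModel y')
    (hn : Algebra.trdeg ℂ K = n) (hn' : Algebra.trdeg ℂ K' = n) (hn0 : 0 < n)
    (hN : NeronSeveri y') {Δ' : Place ℂ K' → ℚ}
    (hΔ' : {P | IsPrimeDivisor y' P ∧ Δ' P ≠ 0}.Finite) {r : ℕ} (hr : 0 < r)
    {φ : (Fin r → ℤ) → (K' ≃ₐ[ℂ] K')} (hφ : ∀ u v, φ (u + v) = φ u * φ v)
    (hiso : ∀ v, PseudoAut (φ v) y')
    (hφΔ : ∀ v (P Q : Place ℂ K'), IsPrimeDivisor y' Q → (∀ g, P.ord g = Q.ord (φ v g)) →
      Δ' P = Δ' Q)
    (hent : ∀ v, v ≠ 0 → 1 < dynDegree (φ v) y' n 1)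
    {Δ : Place ℂ K → ℚ} (hΔ : Effective y Δ) (π : K →ₐ[ℂ] K')
    (hπ : IM.ImagePullLe π y n Δ y' Δ') :
    r < n ∧ NumDimLt y n Δ (n - r) ∧ ¬ KappaGe y n Δ (n - r) ∧
      (KappaGe y n Δ (n - r - 1) → Abundant y n Δ) ∧
      (r + 1 = n → LogPsef y n Δ → IrregularityZero y →
        kodairaDim y n Δ = ((0 : ℕ) : WithBot ℕ) ∧
          ∀ A, Effective y A → Integral y A → numericalDim y n Δ A = ((0 : ℕ) : EReal)) := by
  have hgr := RK.growthRank_of_exp (PA.growthN hy' hn' hn0 hN hr hφ hiso hent)
  obtain ⟨h1, h2'⟩ := RK.rank_main hy' hn' hn0 hΔ' hr hφ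
    (fun v => PA.pullLe_pseudoAut (hiso v) fun P Q hQ hP => (hφΔ v P Q hQ hP).le) hgr
  have h2 := IM.numDimLt_img hy hy' hn hn' π hπ (Nat.sub_le _ _) h2'
  refine ⟨h1, h2, ?_, fun h => ⟨n - r - 1, h, ?_⟩, fun h3 hpsef hq => ?_⟩
  · rintro ⟨m, hm, ω, E, hω, h0, hind⟩
    exact kappa_lt hy hn (Nat.sub_le _ _) h2 hm hω h0 hind
  · rwa [show n - r - 1 + 1 = n - r by omega]
  · rw [show n - r = 1 by omega] at h2
    obtain ⟨m, hm, ω, hω0, hω⟩ := NV.nonvanishing hy hn hn0 hΔ.2 hpsef h2 hq
    exact abundance_zero hy hn hn0 hΔ h2 hm hω hω0
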