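import Pool.Agent.N110.IM.Img
import Pool.Agent.N110.IM.Defs
import Pool.Agent.N110.QPlateau
import Pool.Agent.N110.CanS
import Pool.Agent.N110.RK.Stat
import Pool.Agent.N110.NV.Fin
import Pool.Agent.R887.Exc

/-!
Pairs which are dominated by a pair with dominant rational self-maps whose greatest dynamical degree
is not attained at several consecutive indices: a bound for the numerical dimension.
-/

set_option autoImplicit false

open FF Pool.Agent.W602.GT Pool.Agent.Y172 Pool.Agent.R887 Pool.Agent.N110

/-- Let `X'` be a normal projective variety of dimension `n ≥ 1`, with generic point `y'`, and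
`Δ' ≥ 0` a `ℚ`-divisor on `X'` such that `K_X' + Δ'` is nef (for instance, let `X'` be a minimal
variety and `Δ' = 0`). Let `S` be a set of dominant rational self-maps `f` of `X'`, invertible or
not, given by the endomorphisms `φ = f^*` of the function field, of bounded degrees (a single map,
for instance). Suppose that `f^* (K_X' + Δ')` is at most `K_X' + Δ'` over the prime divisors of `X'`,
or that `Δ' = 0` and `X'` has canonical singularities (no condition on the maps then). Suppose that
the greatest of the joint dynamical degrees `λ 0, ..., λ n` of `S` (the dynamical degrees of `f`, if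
`S = {f}`) is not attained at `ν + 1` consecutive indices.

Let `(X, Δ)` be a pair, `Δ ≥ 0` (for instance a log canonical pair), which is dominated by
`(X', Δ')`: there is a dominant rational map `X' ⇢ X`, generically finite, given by the homomorphism
`π` of the function fields, such that the pull back of `K_X + Δ` is at most `K_X' + Δ'` over the
prime divisors of `X'`. For instance let `X` be the quotient of `X'` by a finite group, with the
branch divisor `Δ` and `Δ' = 0`; the group has nothing to do with the maps in `S`. Then the numerical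
dimension of `K_X + Δ` is less than `ν`, and so is the Kodaira dimension; if the Kodaira dimension is
at least `ν - 1`, then the Kodaira dimension and the numerical dimension of `K_X + Δ` are equal. If
`ν = 1`, `K_X + Δ` is pseudo-effective and the irregularity of `X` is zero, then some multiple
`m (K_X + Δ)`, `m ≥ 1`, has a section `ω ≠ 0`, the Kodaira dimension is zero and so is the numerical
dimension which is defined by the growth of the number of the sections of `m (K_X + Δ) + A`. -/
theorem Pool.Agent.Results.MP_c1e25c_ag.CoveredSelfMaps.result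
    {K K' : Type} [Field K] [Algebra ℂ K] [Field K'] [Algebra ℂ K'] {N N' n : ℕ}
    {y : Fin (N + 1) → K} {y' : Fin (N' + 1) → K'} (hy : NormalModel y) (hy' : NormalModel y')
    (hn : Algebra.trdeg ℂ K = n) (hn' : Algebra.trdeg ℂ K' = n) (hn0 : 0 < n)
    {Δ' : Place ℂ K' → ℚ} (hΔ' : Effective y' Δ') (hnef : LogNef y' n Δ')
    {S : Set (K' →ₐ[ℂ] K')}
    (hS : (∀ φ ∈ S, SelfPullLe φ y' n Δ') ∨ (Δ' = 0 ∧ Canonical y' n))
    {C : ℕ} (hC : ∀ φ ∈ S, selfDegree φ y' n 1 ≤ C) {ν : ℕ} (hν : ν ≤ n)
    (hdeg : ∀ j, j + ν ≤ n → ∃ a ≤ ν, ∃ p ≤ n,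
      selfJointDegree S y' n (j + a) < selfJointDegree S y' n p)
    {Δ : Place ℂ K → ℚ} (hΔ : Effective y Δ) (π : K →ₐ[ℂ] K')
    (hπ : IM.ImagePullLe π y n Δ y' Δ') :
    NumDimLt y n Δ ν ∧ ¬ KappaGe y n Δ ν ∧ (1 ≤ ν → KappaGe y n Δ (ν - 1) → Abundant y n Δ) ∧
      (ν = 1 → LogPsef y n Δ → IrregularityZero y →
        (∃ m : ℕ, 1 ≤ m ∧ ∃ ω : (Fin n → Derivation ℂ K K) → K, ω ≠ 0 ∧
          IsSection y n m (m • Δ) ω) ∧
        kodairaDim y n Δ = ((0 : ℕ) : WithBot ℕ) ∧
        ∀ A, Effective y A → Integral y A → numericalDim y n Δ A = ((0 : ℕ) : EReal)) := by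
  have hS' : ∀ φ ∈ S, SelfPullLe φ y' n Δ' := by
    rcases hS with h | ⟨rfl, hcan'⟩
    · exact h
    · exact fun φ _ => selfPullLe_canonical hy' hn' hcan' φ
  have key : NumDimLt y' n Δ' ν := by
    by_contra hnum
    obtain ⟨j, hj, h4⟩ := splateau hy' hn' hΔ'.2 hnef hS' hC hν hnum
    obtain ⟨a, ha, p, hp, hlt⟩ := hdeg j hj
    exact absurd hlt (not_lt.2 (h4 a ha p hp))
  have h1 := IM.numDimLt_img hy hy' hn hn' π hπ hν key
  refine ⟨h1, ?_, fun h2 h3 => ⟨ν - 1, h3, ?_⟩, ?_⟩
  · rintro ⟨m, hm, ω, E, hω, h0, hind⟩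
    exact kappa_lt hy hn hν h1 hm hω h0 hind
  · rwa [show ν - 1 + 1 = ν by omega]
  · rintro rfl hpsef hq
    obtain ⟨m, hm, ω, hω0, hω⟩ := NV.nonvanishing hy hn hn0 hΔ.2 hpsef h1 hq
    exact ⟨⟨m, hm, ω, hω0, hω⟩, abundance_zero hy hn hn0 hΔ h1 hm hω hω0⟩
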