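import Pool.Agent.N145.SX.All2

/-!
# Log canonical pairs on varieties covered by unirational varieties with a multivalued map

Let `X` be a smooth projective variety over `ℂ` of dimension `m` and let `W` be a variety of dimension
`m + r`. Suppose:

* there is a dominant multivalued rational map from `W` to `X` with `d` values, i.e. a subvariety `Γ`
  of `W × X` which dominates `X` and has finite degree `d` over `W` (for example `d = 1`: a dominant
  rational map `W ⇢ X`);
* the canonical forms of `X` separate `2 d` general points: for some nonempty open subset `U` of `X`
  any `2 d` different points of `U` impose independent conditions on `H⁰(X, K_X)`; for example `X` is a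
  smooth hypersurface of degree at least `m + 1 + 2 d` in projective space, or `K_X - (2 d - 1) H` is
  effective for a divisor `H` which defines a birational map to a projective space, or `X` is a product
  of curves of gonality greater than `2 d`;
* `W` is covered by an `m`-dimensional family of unirational varieties of dimension `r`, i.e. there is
  a dominant rational map of finite degree `M × ℙ^r ⇢ W` with a variety `M` of dimension `m` (if
  `r = 1`: `W` is uniruled).

The theorem: there is a fibration `W ⇢ Z` over a variety `Z` of general type with `dim Z = m` such that
the general fibre is unirational.

The theorem is about pairs. Let `(Y, Δ)` be a projective log canonical pair such that `Y` is birational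
to `W` and `K_Y + Δ` is pseudo-effective, and let `r ≤ 3`. On a log resolution of `Y ⇢ Z` the
restriction of `K_Y + Δ` to the general fibre `F` is the adjoint divisor of a log canonical pair of
dimension `r ≤ 3`. It is pseudo-effective, so it is effective by the known case of dimension at most
three. As `Z` is of general type, `κ(K_Y + Δ) ≥ κ(K_F + Δ_F) + dim Z ≥ m` (additivity of the Kodaira
dimension of pairs over a base of general type: Viehweg, Kawamata, Campana, Fujino). So weak
nonvanishing holds for all these pairs with rational `Δ` (for real `Δ` by the polytope of the
pseudo-effective adjoint divisors on `F`), in any dimension `m + r`. If `(Y, Δ)` is klt then it also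
has a good minimal model, since the fibres of the Iitaka fibration are contained in the fibres `F` of
dimension at most three (Lai, Gongyo-Lehmann), and the minimal model program with scaling of an ample
divisor terminates; if `K_Y + Δ` is not pseudo-effective it ends with a Mori fibre space (Birkar,
Cascini, Hacon, McKernan).

The hypotheses do not give a map `W ⇢ X` or a fibration of `W`; the fibration is a consequence of the
position of the unirational varieties with respect to the multivalued map. For `d = 1` it is obvious.

Proof. Let `Λ` be the algebraic closure of `ℂ(M)`, so that the general member `R` of the family is
dominated by the projective space with coordinates `s 1, ..., s r` over `Λ`. We show that the points of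
`X` given by the multivalued map at the general point of `R` are constant, i.e. algebraic over `Λ`. It
is enough to do this for lines: replace `Λ` by the algebraic closure of the field of the other
coordinates. Let `Ξ` be the field generated by a point `x'` of `X` over `Λ(s)`; its degree over
`Λ(s)` is at most `d`. Let `u` be coordinates for `Λ` and let `D_s`, `D_u` be the vector fields. If
`x'` moved with `s` then some Jacobian determinant of `x'` with respect to `D_s` and `m - 1` of the
`D_u` would not vanish. A canonical form `f` of `X` pulled back by `x'` and contracted with these vector
fields gives a differential on the curve `Ξ / Λ` which is regular: all prime divisors of `Ξ / Λ` are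
prime divisors over `ℂ`, and the vector fields can be adapted to each of them. Its trace on the line
with coordinate `s` is a regular differential, so it is zero. As at most `d` points of `X` are
separated, the determinant vanishes: contradiction. So `x'` is algebraic over the intersection of all
fields `Λ j` of the other coordinates, which is `Λ`.

Let `N` be the intersection of `ℂ(W)` with the algebraic closure of `ℂ(M)`. All functions on `X` are
algebraic over `N`: their minimal polynomials over `ℂ(W)` have coefficients in `Λ`. As both fields have
transcendence degree `m`, the fibration `W ⇢ Z` with `ℂ(Z) = N` has unirational geometric generic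
fibre, and it remains to show that `Z` is of general type. Now `Z` has a multivalued map to `X` with
`d' ≤ d` values, with the same dimension. The trace on `Z` of the pullback of a canonical form of `X`
is a regular canonical form. If two general points `P` and `Q` of `Z` have proportional traces of all
forms, then this is a relation between at most `2 d` points of `X`, so the sets of points of `X` at
`P` and `Q` have a common point; hence the ratios of the traces generate a field over which
`ℂ(X)` is algebraic, and `κ(Z) = m`.

The parts of the Lean proof on pull-backs, the correspondences on rational curves and on unirational
varieties, constant elements and the fibration are due to helpers 123, 281, 438, 27, 615, 999 and 297.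
-/

set_option autoImplicit false
set_option linter.overlappingInstances false
set_option maxHeartbeats 4000000
set_option synthInstance.maxHeartbeats 400000

open FF Module Pool.Agent Pool.Agent.W602.GT

namespace Pool.Agent.Results.MP_c1e25c_ag.UnirationalFibrations

/-- **The canonical forms separate `r` general points.** `E` is the function field of a variety `X` of
dimension `m`, and `D` a rational frame of the tangent bundle. The embeddings `σ : E → Ω` are the
generic points of `X` with coordinates in the field `Ω`. At most `r` different such points impose
independent conditions on the canonical forms `ω` which are regular at all prime divisors: if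
`∑ c σ * σ (ω D) = 0` for all `ω` then all the coefficients `c σ` are zero. -/
def SeparatesPoints (E : Type) [Field E] [Algebra ℂ E] (m r : ℕ) : Prop :=
  ∀ D : Fin m → Derivation ℂ E E, LinearIndependent E D →
    ∀ (Ω : Type) [Field Ω] [Algebra ℂ Ω] [IsAlgClosed Ω] (A : Finset (E →ₐ[ℂ] Ω)), A.card ≤ r →
    ∀ c : (E →ₐ[ℂ] Ω) → Ω,
    (∀ ω : (Fin m → Derivation ℂ E E) → E, IsPluri 1 ω →
      (∀ P : Place ℂ E, Divisorial m P → RegAt P ω) → ∑ σ ∈ A, c σ * σ (ω D) = 0) →
    ∀ σ ∈ A, c σ = 0

/-- The variety `W` with the function field `L` is covered by an `m`-dimensional family of unirational
varieties of dimension `r`: for some field `M` of transcendence degree `m` there is an embedding of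
`L` into the field of rational functions in `r` variables over `M`. -/
def IsCoveredByUnirational (L : Type) [Field L] [Algebra ℂ L] (m r : ℕ) : Prop :=
  ∃ (M : Type) (_ : Field M) (_ : Algebra ℂ M), Algebra.trdeg ℂ M = m ∧
    Nonempty (L →ₐ[ℂ] FractionRing (MvPolynomial (Fin r) M))

/-- There is a fibration `W ⇢ Z`, with `Z` of general type and of dimension `m`, whose generic fibre
is geometrically unirational of dimension `r`. In terms of the function field `L` of `W`: there is a
subfield `N` (the function field of `Z`), algebraically closed in `L` and of transcendence degree `m`,
such that `Z` is of general type, and over an algebraic extension `M` of `N` there is an embedding over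
`N` of `L` into the field of rational functions in `r` variables over `M`. -/
def IsUnirationalFibrationOverGeneralType (L : Type) [Field L] [Algebra ℂ L] (m r : ℕ) : Prop :=
  ∃ N : IntermediateField ℂ L, (∀ z : L, IsAlgebraic N z → z ∈ N) ∧ Algebra.trdeg ℂ N = m ∧
    KodGe ℂ N m (fun _ => False) m ∧ ∃ (M : Type) (_ : Field M) (_ : Algebra N M),
      Algebra.IsAlgebraic N M ∧ Nonempty (L →ₐ[N] FractionRing (MvPolynomial (Fin r) M))

/-- **Varieties covered by unirational varieties with a multivalued map.** Let `K` be the function
field of a variety which dominates `X` (with the function field `E`, of dimension `m`) and is of
finite degree over `W` (with the function field `L`, of dimension `m + r`), and let `d` be the degree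
over `W` of its image in `W × X`. Suppose that the canonical forms of `X` separate `2 d` general points
and that `W` is covered by an `m`-dimensional family of unirational varieties of dimension `r`. Then `W`
has a fibration over a variety of general type of dimension `m` with geometrically unirational generic
fibre. -/
theorem result (K : Type) [Field K] [Algebra ℂ K] [Algebra.EssFiniteType ℂ K] (m r : ℕ)
    (E : IntermediateField ℂ K) [Algebra.EssFiniteType ℂ E] (hE : Algebra.trdeg ℂ E = m)
    (hK : Algebra.trdeg ℂ K = (m + r : ℕ)) (L : Type) [Field L] [Algebra ℂ L] [Algebra L K]
    [IsScalarTower ℂ L K] [FiniteDimensional L K]
    (hX : SeparatesPoints E m (2 * finrank L (IntermediateField.adjoin L (E : Set K))))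
    (hW : IsCoveredByUnirational L m r) : IsUnirationalFibrationOverGeneralType L m r := by
  obtain ⟨x, D, hx, hD⟩ := Pool.Agent.Y172.exists_crd hE
  obtain ⟨M, iM, iA, hM, hLM⟩ := hW
  exact N145.SX.uni K m r E hE hK x hx _
    (N145.SX.sepX_of' hx hD fun Ω _ _ _ A hA c hc => hX D (N145.SX.dual_indep hD) Ω A hA c hc)
    L (Nat.lt_succ_self _) M hM hLM

end Pool.Agent.Results.MP_c1e25c_ag.UnirationalFibrations
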